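import Pool.Agent.DEC.Shorten

/-!
# The longest double-error-correcting binary codes of redundancy 8 have length 19

* `Pool.Agent.DEC.no_code`: no binary code of length 20 with minimum distance 5 has 4096 words.
* `Pool.Agent.DEC.code19`: a binary code of length 19 with 2048 words and minimum distance 5.
-/

namespace Pool.Agent.Results.MP_091b62_co.NStarEight

open Pool.Agent.DEC

/-- a nonempty binary code of length `n` in which any two distinct words have Hamming distance at
least `5` -/
def IsDoubleErrorCorrecting {n : ℕ} (C : Finset (Fin n → Bool)) : Prop :=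
  C.Nonempty ∧ ∀ x ∈ C, ∀ y ∈ C, x ≠ y → 5 ≤ hammingDist x y

/-- the redundancy `n - log₂ |C|` of a binary code `C` of length `n` -/
noncomputable def redundancy {n : ℕ} (C : Finset (Fin n → Bool)) : ℝ :=
  (n : ℝ) - Real.logb 2 (C.card : ℝ)

/-- the lengths `n` of the double-error-correcting binary codes of redundancy `r`; the number
`n*(r)` of the problem is the greatest element of this set -/
def lengths (r : ℕ) : Set ℕ :=
  {n : ℕ | ∃ C : Finset (Fin n → Bool), IsDoubleErrorCorrecting C ∧ redundancy C = r}

theorem mem_lengths : 19 ∈ lengths 8 := by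
  refine ⟨code19, ⟨?_, dist5_code19⟩, ?_⟩
  · rw [← Finset.card_pos, card_code19]; norm_num
  · unfold redundancy
    rw [card_code19]
    have : Real.logb 2 ((2048 : ℕ) : ℝ) = 11 := by
      rw [show ((2048 : ℕ) : ℝ) = 2 ^ (11 : ℝ) by norm_num]
      exact Real.logb_rpow (by norm_num) (by norm_num)
    rw [this]
    norm_num

theorem le_of_mem {n : ℕ} (hn : n ∈ lengths 8) : n ≤ 19 := by
  by_contra hlt
  obtain ⟨k, rfl⟩ : ∃ k, n = 20 + k := ⟨n - 20, by omega⟩
  obtain ⟨C, ⟨hne, hd⟩, hr⟩ := hn
  refine no_long_code k C hd ?_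
  have hpos : (0 : ℝ) < (C.card : ℝ) := by
    exact_mod_cast Finset.card_pos.mpr hne
  have hlog : Real.logb 2 (C.card : ℝ) = (12 + k : ℕ) := by
    unfold redundancy at hr
    push_cast at hr ⊢
    linarith
  have hcard : (C.card : ℝ) = 2 ^ (12 + k) := by
    rw [← Real.rpow_natCast, ← hlog, Real.rpow_logb (by norm_num) (by norm_num) hpos]
  have : C.card = 2 ^ (12 + k) := by exact_mod_cast hcard
  rw [this]

/-- **`n*(8) = 19`**: the greatest length of a double-error-correcting binary code of
redundancy `8` is `19`. -/
theorem result : IsGreatest (lengths 8) 19 :=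
  ⟨mem_lengths, fun _ hn => le_of_mem hn⟩

end Pool.Agent.Results.MP_091b62_co.NStarEight
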